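import Pool.Agent.WK7.Stmts
import Pool.Agent.WK5.Fbw
import Pool.Agent.Helper61_E.Rad
import Pool.Agent.Helper67_WKS.Syn

/-!
# MP_7d2497_an, squad WK7, row RDW (helper69; a weighted copy of `Helper61_E/Rad.lean` of helper61)
-/

set_option autoImplicit false

namespace Pool.Agent.WK7.S69

open MeasureTheory Filter Topology Complex
open Pool.Agent.H78E Pool.Agent.WKS Pool.Agent.WK5
open Pool.Agent.H78E.H61 (zt zt_im_neg WW WW_closed WW_inv sep_notMem pl chi_le ratio_le)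
open Pool.Agent.WK3 (QC Lin)

noncomputable section

theorem mult_ne {x0 m : ℝ} {z : ℂ} (hz : z.im ≤ 0) (hzx : z ≠ (x0 : ℂ)) :
    mult x0 m 1 z ≠ 0 := by
  intro h2
  unfold mult at h2
  rcases mul_eq_zero.1 h2 with h3 | h3
  · have h4 := pow_eq_zero_iff (two_ne_zero) |>.1 h3
    rcases div_eq_zero_iff.1 h4 with h5 | h5
    · rcases mul_eq_zero.1 h5 with h6 | h6
      · exact Complex.I_ne_zero h6
      · exact hzx (sub_eq_zero.1 h6)
    · have h6 := congrArg Complex.re h5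
      simp at h6
      linarith
  · exact Complex.exp_ne_zero _ h3

theorem mult_le {x0 m : ℝ} {ζ : ℂ} (hζ : 0 < ζ.re) :
    ‖mult x0 m 1 (zt x0 ζ)‖ ≤ Real.exp (-(m * ζ.re)) := by
  have hζ0 : ζ ≠ 0 := by rintro rfl; simp at hζ
  have e : Complex.I * (zt x0 ζ - (x0 : ℂ)) = 1 / ζ := by
    unfold zt
    have := Complex.I_mul_I
    field_simp
    linear_combination (-1 : ℂ) * this
  unfold mult
  rw [e, norm_mul, Complex.norm_exp]
  have e2 : (-((m : ℂ) / (1 / ζ))).re = -(m * ζ.re) := by simp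
  have hre : 0 ≤ (1 / ζ).re := by
    rw [one_div, Complex.inv_re]
    exact div_nonneg hζ.le (Complex.normSq_nonneg _)
  have h1 : ‖(1 / ζ / (((1 : ℝ) : ℂ) + 1 / ζ)) ^ 2‖ ≤ 1 := by
    rw [norm_pow, add_comm]
    exact pow_le_one₀ (norm_nonneg _) (ratio_le one_pos hre)
  rw [e2]
  calc _ ≤ 1 * Real.exp (-(m * ζ.re)) := mul_le_mul_of_nonneg_right h1 (Real.exp_pos _).le
    _ = _ := one_mul _

/-- RDW -/
theorem rdw : RdwStmt := by
  intro φ hφ hQC l hl x0 hx0 a ha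
  by_contra hcon
  push Not at hcon
  have hI : ∀ f ∈ (annW hφ l).I, dv φ f ∈ WW x0 a := fun f hf =>
    ⟨‖dv φ f‖, fun ζ hζ => pl (dv φ f) ha ⟨‖f‖, fun y hy => hcon f hf y hy⟩ hζ⟩
  set J : ISub φ := ⟨(WW x0 a).comap (dv φ : Y →ₗ[ℂ] Y),
    (WW_closed ha).preimage (dv φ).continuous, fun s hs f hf => by
      have h1 : dv φ f ∈ WW x0 a := hf
      change dv φ (YW φ s f) ∈ WW x0 a
      rw [dv_YW hφ hs]
      exact WW_inv h1 hs⟩ with hJ
  have hmemJ : ∀ f : Y, f ∈ J.I ↔ dv φ f ∈ WW x0 a := fun f => Iff.rfl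
  have hdsep : dv φ (sepW hφ (x0 : ℂ)) = sep (x0 : ℂ) := by
    rw [← sub_eq_zero]
    apply H85.lapu
    intro z hz
    rw [map_sub, ← chiW_apply, chiW_sep hφ hz.le, chi_sep hz.le, sub_self]
  have hq : J.qm (sepW hφ (x0 : ℂ)) ≠ 0 := by
    rw [Ne, J.qm_eq_zero, hmemJ, hdsep]
    exact sep_notMem ha
  obtain ⟨ψ, hψ⟩ := SeparatingDual.exists_ne_zero (R := ℂ) hq
  set k : Y →L[ℂ] ℂ := ψ.comp J.qm with hk
  have hkW : ∀ f ∈ J.I, k f = 0 := by
    intro f hf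
    rw [hk, ContinuousLinearMap.comp_apply, J.qm_eq_zero.mpr hf, map_zero]
  have hks : k (sepW hφ (x0 : ℂ)) ≠ 0 := hψ
  have hk0 : k ≠ 0 := by
    intro h
    rw [h] at hks
    exact hks rfl
  have hkI : ∀ f ∈ (annW hφ l).I, k f = 0 := fun f hf => hkW f ((hmemJ f).mpr (hI f hf))
  have hne : (annW hφ k).hull.Nonempty := by
    rw [Set.nonempty_iff_ne_empty]
    intro hemp
    exact hk0 (ne_of_simple hφ hl ⟨_, hx0⟩ hkI hemp)
  have hWk : J.I ≤ (annW hφ k).I := fun f hf s hs => hkW _ (J.inv s hs f hf)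
  obtain ⟨A, -, hAm, -⟩ := fc2
  obtain ⟨G, hG⟩ := exists_change hφ hQC (A x0 (a / 3) 1 (rw' w1))
  have hGc : ∀ z : ℂ, z.im ≤ 0 → z ≠ (x0 : ℂ) →
      chi z (dv φ G) = mult x0 (a / 3) 1 z ^ 3 * chiW w1 z (rw' w1) := by
    intro z hz hzx
    rw [hG, ← chiW_apply, hAm x0 (a / 3) 1 (by positivity) one_pos z hz hzx]
  have hGW : dv φ G ∈ WW x0 a := by
    refine ⟨‖rw' w1‖, fun ζ hζ => ?_⟩
    have hz := zt_im_neg (x0 := x0) hζ
    have hne : zt x0 ζ ≠ (x0 : ℂ) := by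
      intro h
      rw [h] at hz
      simp at hz
    rw [hGc _ hz.le hne, norm_mul, norm_pow]
    have h1 : ‖mult x0 (a / 3) 1 (zt x0 ζ)‖ ^ 3 ≤ Real.exp (-(a * ζ.re)) := by
      calc ‖mult x0 (a / 3) 1 (zt x0 ζ)‖ ^ 3 ≤ Real.exp (-(a / 3 * ζ.re)) ^ 3 :=
            pow_le_pow_left₀ (norm_nonneg _) (mult_le hζ) 3
        _ = Real.exp (-(a * ζ.re)) := by
            rw [← Real.exp_nat_mul]
            congr 1
            push_cast
            ring
    have h2 : ‖chiW w1 (zt x0 ζ) (rw' w1)‖ ≤ ‖rw' w1‖ := by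
      rw [chiW_apply]
      exact (chi_le hz.le _).trans (dv_norm isWeight_w1 _)
    calc _ ≤ Real.exp (-(a * ζ.re)) * ‖rw' w1‖ * Real.exp (a * ζ.re) := by gcongr
      _ = ‖rw' w1‖ := by
          rw [Real.exp_neg]
          have := (Real.exp_pos (a * ζ.re)).ne'
          field_simp
  have hsub : ∀ z ∈ (annW hφ k).hull, z = (x0 : ℂ) := by
    intro z hz
    by_contra hzx
    have h1 := hz.2 _ (hWk ((hmemJ G).mpr hGW))
    rw [chiW_apply, hGc z hz.1 hzx] at h1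
    rcases mul_eq_zero.1 h1 with h2 | h2
    · exact mult_ne hz.1 hzx (pow_eq_zero_iff (three_ne_zero) |>.1 h2)
    · exact chiW_rw_ne isWeight_w1 hz.1 h2
  have hull : (annW hφ k).hull = {(x0 : ℂ)} := by
    apply Set.Subset.antisymm
    · intro z hz
      exact hsub z hz
    · rintro z rfl
      obtain ⟨w, hw⟩ := hne
      have := hsub w hw
      rw [this] at hw
      exact hw
  obtain ⟨c, z', hz', hkc⟩ := hl k hkI ⟨_, hull⟩
  have hx0k : (x0 : ℂ) ∈ (annW hφ k).hull := by rw [hull]; exact rfl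
  have hsz : sepW hφ z' ∈ (annW hφ k).I := by
    intro s hs
    rw [hkc, smul_apply, sepW_mem hφ hz' s hs, smul_zero]
  have h1 := hx0k.2 _ hsz
  rw [chiW_sep hφ hx0k.1] at h1
  have h2 : (x0 : ℂ) = z' := by
    rcases div_eq_zero_iff.1 h1 with h3 | h3
    · rcases mul_eq_zero.1 h3 with h4 | h4
      · exact absurd h4 Complex.I_ne_zero
      · exact sub_eq_zero.1 h4
    · exact absurd h3 (pow_ne_zero _ (one_add_ne hx0k.1))
  apply hks
  rw [hkc, h2, smul_apply, chiW_sep hφ hz', sub_self, mul_zero, zero_div, smul_zero]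

end

end Pool.Agent.WK7.S69
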