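import Pool.Agent.Helper69_WK7.Su7a
import Pool.Agent.Helper92_E.Pos2

/-!
# MP_7d2497_an, squad WK7, row SU7: splitting of the spectrum (helper69; compare
`Helper92_E/Pos2.lean` of helper92)
-/

set_option autoImplicit false

namespace Pool.Agent.WK7.S69

open MeasureTheory Filter Topology Complex
open Pool.Agent.H78E Pool.Agent.WKS Pool.Agent.WK5
open Pool.Agent.WK3 (QC Lin)

noncomputable section

variable {φ : ℝ → ℝ}

theorem hull_isClosedW (J : ISub φ) : IsClosed {x : ℝ | (x : ℂ) ∈ J.hull} := by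
  have : {x : ℝ | (x : ℂ) ∈ J.hull} =
      ⋂ (f : Y) (_ : f ∈ J.I), {x : ℝ | chiW φ (x : ℂ) f = 0} := by
    ext x
    simp only [Set.mem_iInter, Set.mem_ofPred_eq, ISub.hull]
    constructor
    · intro h f hf
      exact h.2 f hf
    · intro h
      exact ⟨by simp, h⟩
  rw [this]
  refine isClosed_iInter fun f => isClosed_iInter fun _ => ?_
  exact isClosed_eq (chi_continuous (dv φ f)) continuous_const

/-- A measurable representative with the bound everywhere. -/
theorem exists_nice (hφ : IsWeight φ) {G : ℝ → ℂ} (hG : LInf φ G) :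
    ∃ (G' : ℝ → ℂ) (C : ℝ), Measurable G' ∧ (∀ t, ‖G' t‖ ≤ C * φ t) ∧ G' =ᵐ[volume] G := by
  obtain ⟨hm, C, hC⟩ := hG
  have hms : MeasurableSet {t : ℝ | ‖hm.mk G t‖ ≤ |C| * φ t} :=
    measurableSet_le hm.measurable_mk.norm (measurable_const.mul hφ.meas)
  refine ⟨Set.indicator {t : ℝ | ‖hm.mk G t‖ ≤ |C| * φ t} (hm.mk G), |C|,
    hm.measurable_mk.indicator hms, fun t => ?_, ?_⟩
  · by_cases h : t ∈ {t : ℝ | ‖hm.mk G t‖ ≤ |C| * φ t}
    · rw [Set.indicator_of_mem h]
      exact h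
    · rw [Set.indicator_of_notMem h, norm_zero]
      exact mul_nonneg (abs_nonneg _) (zero_le_one.trans (hφ.one_le t))
  · filter_upwards [hm.ae_eq_mk, hC] with t h1 h2
    rw [Set.indicator_of_mem]
    · exact h1.symm
    · change ‖hm.mk G t‖ ≤ |C| * φ t
      rw [← h1]
      exact h2.trans (mul_le_mul_of_nonneg_right (le_abs_self C)
        (zero_le_one.trans (hφ.one_le t)))

theorem integral_shift_congr {f G G' : ℝ → ℂ} (h : G' =ᵐ[volume] G) (s : ℝ) :
    ∫ t : ℝ, f t * G' (t + s) = ∫ t : ℝ, f t * G (t + s) := by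
  apply integral_congr_ae
  have h1 : ∀ᵐ t : ℝ, G' (t + s) = G (t + s) :=
    (measurePreserving_add_right volume s).quasiMeasurePreserving.ae h
  filter_upwards [h1] with t ht
  rw [ht]

/-- Integrability of products. -/
theorem int_mul (hφ : IsWeight φ) {f G : ℝ → ℂ} (hf : L1 φ f) (hGm : Measurable G) {C : ℝ}
    (hGC : ∀ t, ‖G t‖ ≤ C * φ t) (s : ℝ) : Integrable (fun t => f t * G (t + s)) volume := by
  have hC0 : 0 ≤ C := by
    have h1 := (norm_nonneg _).trans (hGC 0)
    have h2 : 0 < φ 0 := lt_of_lt_of_le one_pos (hφ.one_le 0)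
    exact nonneg_of_mul_nonneg_left h1 h2
  refine (hf.2.const_mul (C * φ s)).mono' (hf.1.mul
    (hGm.comp (measurable_add_const s)).aestronglyMeasurable)
    (Eventually.of_forall fun t => ?_)
  rw [norm_mul]
  calc ‖f t‖ * ‖G (t + s)‖ ≤ ‖f t‖ * (C * (φ t * φ s)) := by
        apply mul_le_mul_of_nonneg_left _ (norm_nonneg _)
        exact (hGC _).trans (mul_le_mul_of_nonneg_left (hφ.submul t s) hC0)
    _ = C * φ s * (φ t * ‖f t‖) := by ring

/-- SU7 -/
theorem su7_0 (hLCW : LcwStmt) (hPBW : PbwStmt) (hUNK : UnkStmt) : Su7Stmt := by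
  rintro φ hφ hQC ⟨c, T, hc, hT⟩ L R hLR hfar g hg hne hsimple hsub
  have hBi : BipolarStmt := bipolar
  obtain ⟨l, hl⟩ := exists_functionalW hφ hg
  have hspec : SpecPos φ g = (annW hφ l).hull := specPos_eqW hφ hg hl
  rw [hspec] at hne hsub
  -- simplicity in terms of functionals
  have hsimp : SimW hφ l := by
    intro k hk hz
    obtain ⟨u, hu, huL⟩ := exists_functionW hφ k
    have huB : u ∈ BPos φ g := (mem_BPos_iffW hφ hg huL hl hu).mpr hk
    obtain ⟨c, z, hz1, hz2⟩ := hsimple u huB (by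
      obtain ⟨z, hz⟩ := hz
      exact ⟨z, by rw [specPos_eqW hφ huL hu, hz]⟩)
    exact ⟨c, z, hz1, repW_smul_exp hu hz1 hz2⟩
  have hreal : ∀ z ∈ (annW hφ l).hull, z.im = 0 := by
    intro z hz
    obtain ⟨x, _, rfl⟩ := hsub hz
    simp
  have hre : ∀ z ∈ (annW hφ l).hull, z = ((z.re : ℝ) : ℂ) := by
    intro z hz
    apply Complex.ext <;> simp [hreal z hz]
  set K : Set ℝ := {x : ℝ | (x : ℂ) ∈ (annW hφ l).hull} with hK
  have hKcl : IsClosed K := hull_isClosedW _
  have hKL : K ⊆ L := by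
    intro x hx
    obtain ⟨y, hy, hyx⟩ := hsub hx
    have : y = x := Complex.ofReal_injective hyx
    rw [← this]
    exact hy
  -- the circle
  set R' : ℝ := max R 1 with hR'
  have hR'0 : 0 < R' := lt_of_lt_of_le one_pos (le_max_right _ _)
  have hcl : IsClosed {x : ℝ | x ∈ K ∧ R' ≤ |x|} :=
    hKcl.inter (isClosed_le continuous_const continuous_abs)
  have hcount : {x : ℝ | x ∈ K ∧ R' ≤ |x|}.Countable := by
    apply hLR _ (fun x hx => hKL hx.1) _ hcl
    intro x hx
    exact (le_max_left _ _).trans hx.2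
  obtain ⟨ρ1, ρ, hRρ, hρ1, hρρ, hav⟩ := H92.exists_circle hKcl hR'0 hcount
  have hC : CircW hφ (annW hφ l) ρ1 ρ := by
    refine ⟨hρ1, hρρ, ?_⟩
    intro z h1 h2
    apply (annW hφ l).D_unit hφ
    intro hz
    have h3 := hre z hz
    have h4 : ‖z‖ = |z.re| := by
      rw [h3, Complex.norm_real, Real.norm_eq_abs]
      simp
    rw [h4] at h1 h2
    exact hav z.re (by rw [hK, Set.mem_ofPred_eq, ← h3]; exact hz) h1 h2
  have hρ0 : 0 < ρ := hρ1.trans hρρ
  -- growth
  obtain ⟨CX, hCX0, hCX⟩ := hPBW φ hφ (annW hφ l) ρ1 ρ c T hC hc hT hreal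
    (fun x0 hx0 => hLCW φ hφ hQC l hsimp x0 hx0 (c ^ 2 / 4) (by positivity) hreal)
  have hGbc : Continuous (Gb hφ l ρ) := Gb_cont hC
  have hGbn : ∀ t, ‖Gb hφ l ρ t‖ ≤ (‖kqW hφ l‖ * CX) * φ t := by
    intro t
    unfold Gb
    refine ((kqW hφ l).le_opNorm _).trans ?_
    rw [mul_assoc]
    exact mul_le_mul_of_nonneg_left (hCX t) (norm_nonneg _)
  -- the far part
  obtain ⟨⟨hgm, Cg, hCg⟩, hg0⟩ := hg
  have hg : LInfPos φ g := ⟨⟨hgm, Cg, hCg⟩, hg0⟩
  set gf : ℝ → ℂ := fun t => if 0 ≤ t then g t - Gb hφ l ρ t else 0 with hgf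
  have hgfL : LInfPos φ gf := by
    refine ⟨⟨?_, Cg + ‖kqW hφ l‖ * CX, ?_⟩, fun t ht => ?_⟩
    · have h1 : AEStronglyMeasurable (Set.indicator (Set.Ici (0 : ℝ))
          (fun t => g t - Gb hφ l ρ t)) volume :=
        (hgm.sub hGbc.aestronglyMeasurable).indicator measurableSet_Ici
      refine h1.congr (Eventually.of_forall fun t => ?_)
      simp only [hgf, Set.indicator, Set.mem_Ici]
    · filter_upwards [hCg] with t ht
      simp only [hgf]
      split_ifs with h
      · calc ‖g t - Gb hφ l ρ t‖ ≤ ‖g t‖ + ‖Gb hφ l ρ t‖ := norm_sub_le _ _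
          _ ≤ Cg * φ t + (‖kqW hφ l‖ * CX) * φ t := add_le_add ht (hGbn t)
          _ = _ := by ring
      · rw [norm_zero]
        have h1 : 0 ≤ Cg * φ t := (norm_nonneg _).trans ht
        have h2 : 0 ≤ (‖kqW hφ l‖ * CX) * φ t := (norm_nonneg _).trans (hGbn t)
        linarith
    · simp only [hgf]
      rw [if_neg (not_le.mpr ht)]
  have hint_g : ∀ F : Y, Integrable (fun t => ((dv φ F : X) : ℝ → ℂ) t * g t) volume := by
    intro F
    have h1 := (L1_dv hφ F)
    refine (h1.2.const_mul |Cg|).mono' (h1.1.mul hgm) ?_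
    filter_upwards [hCg] with t ht
    rw [norm_mul]
    have h2 : 0 ≤ φ t := zero_le_one.trans (hφ.one_le t)
    calc ‖((dv φ F : X) : ℝ → ℂ) t‖ * ‖g t‖ ≤ ‖((dv φ F : X) : ℝ → ℂ) t‖ * (|Cg| * φ t) := by
          apply mul_le_mul_of_nonneg_left _ (norm_nonneg _)
          exact ht.trans (mul_le_mul_of_nonneg_right (le_abs_self _) h2)
      _ = |Cg| * (φ t * ‖((dv φ F : X) : ℝ → ℂ) t‖) := by ring
  have hgfR : RepW φ (lf hφ l ρ) gf := by
    intro F
    have h1 := rep_b hC F 0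
    simp only [add_zero] at h1
    rw [lf_apply, hl F, ← h1]
    have h2 := int_mul hφ (L1_dv hφ F) hGbc.measurable hGbn 0
    simp only [add_zero] at h2
    rw [← integral_sub (hint_g F) h2]
    apply integral_congr_ae
    have hF : ∀ᵐ t : ℝ, t < 0 → ((dv φ F : X) : ℝ → ℂ) t = 0 := (dv φ F).2
    filter_upwards [hF] with t ht
    simp only [hgf]
    by_cases h : 0 ≤ t
    · rw [if_pos h]
      ring
    · rw [if_neg h, ht (not_le.mp h)]
      ring
  have hspecf : SpecPos φ gf = (annW hφ (lf hφ l ρ)).hull := specPos_eqW hφ hgfL hgfR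
  have hle1 : (annW hφ l).I ≤ (annW hφ (lf hφ l ρ)).I := ann_le_lf hC
  -- the extension of the far part
  obtain ⟨Gf, Cf, hGfm, hCf, hGfg, hGfk, hGfs⟩ : ∃ (Gf : ℝ → ℂ) (Cf : ℝ), Measurable Gf ∧
      (∀ t, ‖Gf t‖ ≤ Cf * φ t) ∧ (∀ᵐ t : ℝ, 0 ≤ t → Gf t = gf t) ∧
      (∀ F ∈ (annW hφ (lf hφ l ρ)).I, ∀ s : ℝ,
        ∫ t : ℝ, ((dv φ F : X) : ℝ → ℂ) t * Gf (t + s) = 0) ∧
      (∀ x : ℝ, (x : ℂ) ∈ (annW hφ (lf hφ l ρ)).hull → x ∈ Spec φ Gf) := by
    rcases Set.eq_empty_or_nonempty (annW hφ (lf hφ l ρ)).hull with hemp | hnef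
    · have hlf0 : lf hφ l ρ = 0 := ne_of_simple hφ hsimp hne
        (fun f hf => annW_self hφ (hle1 hf)) hemp
      refine ⟨fun _ => 0, 0, measurable_const, fun t => by simp, ?_, fun F _ s => by simp,
        fun x hx => ?_⟩
      · rw [hlf0, repW_iff hφ] at hgfR
        have h1 : Rep (0 : Y →L[ℂ] ℂ) (fun _ => (0 : ℂ)) := by
          intro F
          simp
        have h2 : ∀ᵐ t : ℝ, 0 ≤ t → ‖gf t / (φ t : ℂ)‖ ≤ |Cg| + ‖kqW hφ l‖ * CX := by
          obtain ⟨⟨_, Cgf, hCgf⟩, _⟩ := hgfL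
          filter_upwards [hCg] with t ht h0
          have hφp : 0 < φ t := lt_of_lt_of_le one_pos (hφ.one_le t)
          rw [norm_div, Complex.norm_real, Real.norm_of_nonneg hφp.le, div_le_iff₀ hφp]
          simp only [hgf]
          rw [if_pos h0]
          calc ‖g t - Gb hφ l ρ t‖ ≤ ‖g t‖ + ‖Gb hφ l ρ t‖ := norm_sub_le _ _
            _ ≤ |Cg| * φ t + (‖kqW hφ l‖ * CX) * φ t := by
                refine add_le_add (ht.trans ?_) (hGbn t)
                exact mul_le_mul_of_nonneg_right (le_abs_self _) hφp.le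
            _ = _ := by ring
        have h3 := rep_unique h1 hgfR aestronglyMeasurable_const
          (hgfL.1.1.mul ((Complex.measurable_ofReal.comp hφ.meas).inv).aestronglyMeasurable)
          (C := |Cg| + ‖kqW hφ l‖ * CX)
          (Eventually.of_forall fun t _ => by
            rw [norm_zero]
            have : 0 ≤ |Cg| := abs_nonneg _
            positivity) h2
        filter_upwards [h3] with t ht h0
        have h4 := ht h0
        have hφp : (φ t : ℂ) ≠ 0 := by
          have : 0 < φ t := lt_of_lt_of_le one_pos (hφ.one_le t)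
          exact_mod_cast this.ne'
        rw [eq_comm, div_eq_zero_iff] at h4
        rcases h4 with h4 | h4
        · exact h4.symm
        · exact absurd h4 hφp
      · exact absurd hx (by rw [hemp]; exact Set.notMem_empty _)
    · obtain ⟨G0, hG0, hG0g, hG0s⟩ := hfar gf hgfL (by rw [hspecf]; exact hnef) (by
        intro h hh hz
        obtain ⟨k, hk⟩ := exists_functionalW hφ hh.1
        have h1 := (mem_BPos_iffW hφ hgfL hh.1 hgfR hk).mp hh
        exact hsimple h ((mem_BPos_iffW hφ hg hh.1 hl hk).mpr fun f hf => h1 f (hle1 hf)) hz) (by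
        rw [hspecf]
        intro z hz
        have h1 := hre z (hull_lf_le hC hz)
        have h2 : ((z.re : ℝ) : ℂ) ∈ (annW hφ (lf hφ l ρ)).hull := by rw [← h1]; exact hz
        obtain ⟨h3, h4⟩ := far_of_hull hC h2
        refine ⟨z.re, ⟨hKL h3, ?_⟩, h1.symm⟩
        exact ((le_max_left _ _).trans hRρ.le).trans (not_lt.mp h4))
      obtain ⟨Gf, Cf, hGfm, hCf, hae⟩ := exists_nice hφ hG0
      have hGfL : LInf φ Gf := ⟨hGfm.aestronglyMeasurable, Cf, Eventually.of_forall hCf⟩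
      have hSpec : Spec φ Gf = Spec φ G0 := by
        ext x
        rw [mem_Spec hBi hφ hGfL, mem_Spec hBi hφ hG0]
        constructor
        · intro h f hf hk
          exact h f hf fun s => by rw [integral_shift_congr hae]; exact hk s
        · intro h f hf hk
          exact h f hf fun s => by rw [← integral_shift_congr hae]; exact hk s
      have hmem : ∀ x : ℝ, (x : ℂ) ∈ (annW hφ (lf hφ l ρ)).hull ↔ x ∈ Spec φ Gf := by
        intro x
        rw [← hspecf, ← hG0s, hSpec]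
        constructor
        · rintro ⟨y, hy, hyx⟩
          have : y = x := Complex.ofReal_injective hyx
          rw [← this]
          exact hy
        · intro hx
          exact ⟨x, hx, rfl⟩
      have hnu : Spec φ Gf ≠ Set.univ := by
        intro h
        have h1 : ((0 : ℝ) : ℂ) ∈ (annW hφ (lf hφ l ρ)).hull := (hmem 0).mpr (by
          rw [h]
          exact Set.mem_univ _)
        have h2 := (far_of_hull hC h1).2
        rw [abs_zero] at h2
        exact h2 hρ0
      have hGfg : ∀ᵐ t : ℝ, 0 ≤ t → Gf t = gf t := by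
        filter_upwards [hae, hG0g] with t h1 h2 h3
        rw [h1, h2 h3]
      refine ⟨Gf, Cf, hGfm, hCf, hGfg, fun F hF => ?_, fun x hx => (hmem x).mp hx⟩
      refine hUNK φ hφ Gf hGfL hnu F fun s hs => ?_
      have h1 := hF s hs
      rw [repW_shift hφ hgfR hs] at h1
      rw [← h1]
      apply integral_congr_ae
      have hF0 : ∀ᵐ t : ℝ, t < 0 → ((dv φ F : X) : ℝ → ℂ) t = 0 := (dv φ F).2
      have h2 : ∀ᵐ t : ℝ, 0 ≤ t + s → Gf (t + s) = gf (t + s) :=
        (measurePreserving_add_right volume s).quasiMeasurePreserving.ae hGfg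
      filter_upwards [hF0, h2] with t h3 h4
      by_cases h5 : t < 0
      · rw [h3 h5, zero_mul, zero_mul]
      · rw [h4 (by linarith [not_lt.mp h5])]
  -- the extension
  set G : ℝ → ℂ := fun t => Gb hφ l ρ t + Gf t with hG
  have hGm : Measurable G := hGbc.measurable.add hGfm
  have hGn : ∀ t, ‖G t‖ ≤ (‖kqW hφ l‖ * CX + Cf) * φ t := by
    intro t
    calc ‖G t‖ ≤ ‖Gb hφ l ρ t‖ + ‖Gf t‖ := norm_add_le _ _
      _ ≤ (‖kqW hφ l‖ * CX) * φ t + Cf * φ t := add_le_add (hGbn t) (hCf t)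
      _ = _ := by ring
  have hGL : LInf φ G := ⟨hGm.aestronglyMeasurable, _, Eventually.of_forall hGn⟩
  have hkillG : ∀ F ∈ (annW hφ l).I, ∀ s : ℝ,
      ∫ t : ℝ, ((dv φ F : X) : ℝ → ℂ) t * G (t + s) = 0 := by
    intro F hF s
    have h1 := int_mul hφ (L1_dv hφ F) hGbc.measurable hGbn s
    have h2 := int_mul hφ (L1_dv hφ F) hGfm hCf s
    simp only [hG, mul_add]
    rw [integral_add h1 h2, rep_b hC, (annW hφ l).qm_eq_zero.mpr hF, map_zero, map_zero,
      zero_add]
    exact hGfk F (hle1 hF) s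
  have hGg : ∀ᵐ t : ℝ, 0 ≤ t → G t = g t := by
    filter_upwards [hGfg] with t ht h0
    simp only [hG]
    rw [ht h0]
    simp only [hgf]
    rw [if_pos h0]
    ring
  refine ⟨G, hGL, hGg, ?_⟩
  rw [hspec]
  apply Set.Subset.antisymm
  · rintro z ⟨x, hx, rfl⟩
    rw [mem_Spec hBi hφ hGL] at hx
    refine ⟨by simp, fun F hF => ?_⟩
    have h4 := hx _ (L1_dv hφ F) (hkillG F hF)
    rw [chiW_rep (by simp) F, ← h4]
    apply integral_congr_ae
    have hF0 : ∀ᵐ t : ℝ, t < 0 → ((dv φ F : X) : ℝ → ℂ) t = 0 := (dv φ F).2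
    filter_upwards [hF0] with t ht
    by_cases h0 : 0 ≤ t
    · unfold expPos expR
      rw [if_pos h0]
    · rw [ht (not_le.mp h0), zero_mul, zero_mul]
  intro z hz
  have hzr := hre z hz
  set x : ℝ := z.re with hx
  have hxh : (x : ℂ) ∈ (annW hφ l).hull := by rw [← hzr]; exact hz
  refine ⟨x, ?_, hzr.symm⟩
  rw [mem_Spec hBi hφ hGL]
  -- functions killing the translates of `G`
  have hXi : ∀ f : ℝ → ℂ, L1 φ f →
      Integrable (fun t => f t • XiW hφ (annW hφ l) ρ t) volume := by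
    intro f hf
    refine (hf.2.const_mul CX).mono' (hf.1.smul (H90.Xi_cont hC).aestronglyMeasurable) ?_
    refine Eventually.of_forall fun t => ?_
    rw [norm_smul]
    calc ‖f t‖ * ‖XiW hφ (annW hφ l) ρ t‖ ≤ ‖f t‖ * (CX * φ t) :=
          mul_le_mul_of_nonneg_left (hCX t) (norm_nonneg _)
      _ = CX * (φ t * ‖f t‖) := by ring
  have hζ : ∀ f : ℝ → ℂ, L1 φ f → (∀ s : ℝ, ∫ t : ℝ, f t * G (t + s) = 0) →
      ∫ t : ℝ, f t • XiW hφ (annW hφ l) ρ t = 0 := by
    intro f hf h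
    exact zeta_zero hC hGfm hCf hGfk hf (hXi f hf)
      (fun s => int_mul hφ hf hGbc.measurable hGbn s) h
  intro f hf h
  by_cases hxρ : |x| < ρ
  · have h1 := hζ f hf h
    have h2 := ContinuousLinearMap.integral_comp_comm ((annW hφ l).ch hxh) (hXi f hf)
    rw [h1, map_zero] at h2
    rw [← h2]
    congr 1
    ext1 t
    rw [map_smul, H90.ch_Xi hC hxh, if_pos hxρ, smul_eq_mul]
    rfl
  · have h1 : x ∈ Spec φ Gf := hGfs x (hull_of_far hC hxh hxρ)
    have hGfL : LInf φ Gf := ⟨hGfm.aestronglyMeasurable, Cf, Eventually.of_forall hCf⟩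
    rw [mem_Spec hBi hφ hGfL] at h1
    apply h1 f hf
    intro s
    -- translate
    have hfs : L1 φ (fun t => f (t - s)) := H92.L1_shift hφ hf s
    have h2 : ∀ s' : ℝ, ∫ t : ℝ, f (t - s) * G (t + s') = 0 := by
      intro s'
      have h3 := integral_sub_right_eq_self (μ := (volume : Measure ℝ))
        (fun t => f t * G (t + (s + s'))) s
      rw [h (s + s')] at h3
      rw [← h3]
      congr 1
      ext1 t
      congr 2
      ring
    have h4 := hζ _ hfs h2
    have h5 := ContinuousLinearMap.integral_comp_comm (kqW hφ l) (hXi _ hfs)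
    rw [h4, map_zero] at h5
    have h6 : ∫ t : ℝ, f t * Gb hφ l ρ (t + s) = 0 := by
      have h7 := integral_sub_right_eq_self (μ := (volume : Measure ℝ))
        (fun t => f t * Gb hφ l ρ (t + s)) s
      rw [← h7, ← h5]
      congr 1
      ext1 t
      rw [map_smul, smul_eq_mul, sub_add_cancel]
      rfl
    have h8 : Integrable (fun t => f t * Gf (t + s)) volume := int_mul hφ hf hGfm hCf s
    have h9 := h s
    simp only [hG, mul_add] at h9
    rw [integral_add (int_mul hφ hf hGbc.measurable hGbn s) h8, h6, zero_add] at h9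
    exact h9

end

end Pool.Agent.WK7.S69

namespace Pool.Agent.WK7

/-- row SU7 -/
theorem su7 (hLCW : LcwStmt) (hPBW : PbwStmt) (hUNK : UnkStmt) : Su7Stmt :=
  S69.su7_0 hLCW hPBW hUNK

end Pool.Agent.WK7
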