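import Pool.Agent.WK7.Paw
import Pool.Agent.Helper67_WKS.Syn
import Pool.Agent.Helper92_E.Pos2a

/-!
# MP_7d2497_an, squad WK7, row SU7, lemmas: the two parts of the functional, weighted (helper69;
a weighted copy of `Helper92_E/Pos2d.lean` of helper92)
-/

set_option autoImplicit false

namespace Pool.Agent.WK7.S69

open MeasureTheory Filter Topology Complex
open Pool.Agent.H78E Pool.Agent.WKS Pool.Agent.WK5
open Pool.Agent.WK3 (QC Lin)

noncomputable section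

variable {φ : ℝ → ℝ}

theorem sep0 (hφ : IsWeight φ) {l : Y →L[ℂ] ℂ} {x : (annW hφ l).Q}
    (h : ∀ s : ℝ, 0 ≤ s → kqW hφ l (((annW hφ l).S hφ).T s x) = 0) : x = 0 := by
  obtain ⟨f, rfl⟩ := (annW hφ l).qm_surj x
  rw [(annW hφ l).qm_eq_zero]
  intro s hs
  have h1 := h s hs
  rw [← (annW hφ l).qm_T hφ hs, kqW_qm] at h1
  exact h1

theorem mem_ann_comp (hφ : IsWeight φ) {l : Y →L[ℂ] ℂ}
    {P : (annW hφ l).Q →L[ℂ] (annW hφ l).Q}
    (hP : ∀ s : ℝ, 0 ≤ s → ∀ x, P (((annW hφ l).S hφ).T s x) = ((annW hφ l).S hφ).T s (P x))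
    (f : Y) :
    f ∈ (annW hφ ((kqW hφ l).comp (P.comp (annW hφ l).qm))).I ↔ P ((annW hφ l).qm f) = 0 := by
  have h1 : ∀ s : ℝ, 0 ≤ s → ((kqW hφ l).comp (P.comp (annW hφ l).qm)) (YW φ s f) =
      kqW hφ l (((annW hφ l).S hφ).T s (P ((annW hφ l).qm f))) := by
    intro s hs
    rw [ContinuousLinearMap.comp_apply, ContinuousLinearMap.comp_apply, (annW hφ l).qm_T hφ hs,
      hP s hs]
  constructor
  · intro hf
    apply sep0 hφ
    intro s hs
    rw [← h1 s hs]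
    exact hf s hs
  · intro hf s hs
    rw [h1 s hs, hf, map_zero, map_zero]

/-- Fubini for a kernel depending on the sum, bounded by the weight. -/
theorem fubini_sum (hφ : IsWeight φ) {h f G : ℝ → ℂ} (hh : L1 φ h) (hf : L1 φ f)
    (hGm : Measurable G) {C : ℝ} (hGC : ∀ t, ‖G t‖ ≤ C * φ t) :
    ∫ s : ℝ, h s * ∫ t : ℝ, f t * G (t + s) = ∫ t : ℝ, f t * ∫ s : ℝ, h s * G (s + t) := by
  have hC0 : 0 ≤ C := by
    have h1 := (norm_nonneg _).trans (hGC 0)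
    have h2 : 0 < φ 0 := lt_of_lt_of_le one_pos (hφ.one_le 0)
    exact nonneg_of_mul_nonneg_left h1 h2
  have h1 : Integrable (fun p : ℝ × ℝ => (h p.1 * f p.2) * G (p.2 + p.1))
      ((volume : Measure ℝ).prod volume) := by
    refine ((hh.2.mul_prod hf.2).const_mul C).mono' ?_ (Eventually.of_forall fun p => ?_)
    · have hm : Measurable fun p : ℝ × ℝ => G (p.2 + p.1) :=
        hGm.comp (measurable_snd.add measurable_fst)
      exact (hh.1.comp_fst.mul hf.1.comp_snd).mul hm.aestronglyMeasurable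
    · rw [norm_mul, norm_mul]
      have h3 := hGC (p.2 + p.1)
      have h4 := hφ.submul p.2 p.1
      calc ‖h p.1‖ * ‖f p.2‖ * ‖G (p.2 + p.1)‖
          ≤ ‖h p.1‖ * ‖f p.2‖ * (C * (φ p.2 * φ p.1)) := by
            apply mul_le_mul_of_nonneg_left _ (by positivity)
            exact h3.trans (mul_le_mul_of_nonneg_left h4 hC0)
        _ = C * (φ p.1 * ‖h p.1‖ * (φ p.2 * ‖f p.2‖)) := by ring
  have h2 := integral_integral_swap (f := fun s t : ℝ => (h s * f t) * G (t + s)) h1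
  have h3 : ∀ s : ℝ, ∫ t : ℝ, (h s * f t) * G (t + s) = h s * ∫ t : ℝ, f t * G (t + s) := by
    intro s
    rw [← integral_const_mul]
    congr 1
    ext1 t
    ring
  have h4 : ∀ t : ℝ, ∫ s : ℝ, (h s * f t) * G (t + s) = f t * ∫ s : ℝ, h s * G (s + t) := by
    intro t
    rw [← integral_const_mul]
    congr 1
    ext1 s
    rw [add_comm t s]
    ring
  simp only [h3, h4] at h2
  exact h2

variable {hφ : IsWeight φ} {l : Y →L[ℂ] ℂ} {ρ1 ρ : ℝ} (hC : CircW hφ (annW hφ l) ρ1 ρ)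

/-- The bounded part of the extension. -/
def Gb (hφ : IsWeight φ) (l : Y →L[ℂ] ℂ) (ρ : ℝ) (t : ℝ) : ℂ :=
  kqW hφ l (XiW hφ (annW hφ l) ρ t)

/-- The far part of the functional. -/
def lf (hφ : IsWeight φ) (l : Y →L[ℂ] ℂ) (ρ : ℝ) : Y →L[ℂ] ℂ :=
  (kqW hφ l).comp (((1 : (annW hφ l).Q →L[ℂ] (annW hφ l).Q) -
    EcW hφ (annW hφ l) ρ 0).comp (annW hφ l).qm)

theorem lf_apply (F : Y) : lf hφ l ρ F =
    l F - kqW hφ l (EcW hφ (annW hφ l) ρ 0 ((annW hφ l).qm F)) := by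
  unfold lf
  rw [ContinuousLinearMap.comp_apply, ContinuousLinearMap.comp_apply, sub_apply, map_sub]
  rfl

theorem L1_dv (hφ : IsWeight φ) (F : Y) : L1 φ ((dv φ F : X) : ℝ → ℂ) := by
  refine ⟨(MeasureTheory.L1.integrable_coeFn (dv φ F : X)).aestronglyMeasurable, ?_⟩
  refine (MeasureTheory.L1.integrable_coeFn (F : X)).norm.congr ?_
  filter_upwards [coe_eq_mul_dv hφ F] with t h2
  rw [h2, norm_mul, Complex.norm_real, Real.norm_of_nonneg (zero_le_one.trans (hφ.one_le t))]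

include hC

theorem Gb_cont : Continuous (Gb hφ l ρ) := (kqW hφ l).continuous.comp (H90.Xi_cont hC)

theorem rep_b (F : Y) (s : ℝ) :
    ∫ t : ℝ, ((dv φ F : X) : ℝ → ℂ) t * Gb hφ l ρ (t + s) =
      kqW hφ l (EcW hφ (annW hφ l) ρ s ((annW hφ l).qm F)) := by
  have hi := ((annW hφ l).S hφ).cont_mul (GI_dv hφ F) (XiW hφ (annW hφ l) ρ s)
  rw [← H90.pi_Xi hC, ((annW hφ l).S hφ).pi_apply (GI_dv hφ F),
    ← ContinuousLinearMap.integral_comp_comm (kqW hφ l) hi,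
    Y_integral_Ioi (dv φ F) (F := fun u t => u * Gb hφ l ρ (t + s)) (by simp)]
  apply setIntegral_congr_fun measurableSet_Ioi
  intro t ht
  have ht' : (0 : ℝ) < t := ht
  simp only [map_smul, smul_eq_mul]
  rw [H90.T_Xi hC s ht'.le, add_comm s t]
  rfl

theorem E0_T {s : ℝ} (hs : 0 ≤ s) (x : (annW hφ l).Q) :
    EcW hφ (annW hφ l) ρ 0 (((annW hφ l).S hφ).T s x) =
      ((annW hφ l).S hφ).T s (EcW hφ (annW hφ l) ρ 0 x) := by
  have h := (H90.Ec_comm hC ((annW hφ l).T_commute_En hφ hs).symm 0).eq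
  exact (congrArg (fun A : (annW hφ l).Q →L[ℂ] (annW hφ l).Q => A x) h).symm

theorem E0_E (s : ℝ) (x : (annW hφ l).Q) :
    EcW hφ (annW hφ l) ρ s (EcW hφ (annW hφ l) ρ 0 x) = EcW hφ (annW hφ l) ρ s x := by
  have h := H90.Ec_mul hC H51.riec s 0
  rw [add_zero] at h
  exact congrArg (fun A : (annW hφ l).Q →L[ℂ] (annW hφ l).Q => A x) h

theorem mem_ann_lf (F : Y) :
    F ∈ (annW hφ (lf hφ l ρ)).I ↔
      EcW hφ (annW hφ l) ρ 0 ((annW hφ l).qm F) = (annW hφ l).qm F := by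
  unfold lf
  rw [mem_ann_comp hφ]
  · rw [sub_apply]
    change (annW hφ l).qm F - EcW hφ (annW hφ l) ρ 0 ((annW hφ l).qm F) = 0 ↔ _
    rw [sub_eq_zero, eq_comm]
  · intro s hs x
    rw [sub_apply, sub_apply, map_sub, E0_T hC hs]
    rfl

theorem ann_le_lf : (annW hφ l).I ≤ (annW hφ (lf hφ l ρ)).I := by
  intro F hF
  rw [mem_ann_lf hC, (annW hφ l).qm_eq_zero.mpr hF, map_zero]

theorem hull_lf_le : (annW hφ (lf hφ l ρ)).hull ⊆ (annW hφ l).hull := fun _ hz =>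
  ⟨hz.1, fun f hf => hz.2 f (ann_le_lf hC hf)⟩

theorem far_of_hull {x : ℝ}
    (hx : (x : ℂ) ∈ (annW hφ (lf hφ l ρ)).hull) : (x : ℂ) ∈ (annW hφ l).hull ∧ ¬ |x| < ρ := by
  have h1 : (x : ℂ) ∈ (annW hφ l).hull := hull_lf_le hC hx
  refine ⟨h1, fun hlt => ?_⟩
  obtain ⟨F, hF⟩ := (annW hφ l).qm_surj (EcW hφ (annW hφ l) ρ 0 ((annW hφ l).qm (rw' φ)))
  have h2 : F ∈ (annW hφ (lf hφ l ρ)).I := by
    rw [mem_ann_lf hC, hF, E0_E hC]
  have h3 := hx.2 F h2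
  have h4 := H90.ch_Ec hC h1 0 ((annW hφ l).qm (rw' φ))
  rw [← hF, if_pos hlt, (annW hφ l).ch_qm, (annW hφ l).ch_qm, h3] at h4
  simp only [Complex.ofReal_zero, mul_zero, zero_mul, neg_zero, Complex.exp_zero, one_mul] at h4
  exact chiW_rw_ne hφ (by simp) h4.symm

theorem hull_of_far {x : ℝ} (hx : (x : ℂ) ∈ (annW hφ l).hull) (hn : ¬ |x| < ρ) :
    (x : ℂ) ∈ (annW hφ (lf hφ l ρ)).hull := by
  refine ⟨by simp, fun F hF => ?_⟩
  rw [mem_ann_lf hC] at hF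
  have h4 := H90.ch_Ec hC hx 0 ((annW hφ l).qm F)
  rw [hF, if_neg hn, zero_mul, (annW hφ l).ch_qm] at h4
  exact h4

/-- The annihilation argument. -/
theorem zeta_zero {Gf : ℝ → ℂ} (hGm : Measurable Gf) {Cf : ℝ}
    (hGC : ∀ t, ‖Gf t‖ ≤ Cf * φ t)
    (hkill : ∀ F ∈ (annW hφ (lf hφ l ρ)).I, ∀ s : ℝ,
      ∫ t : ℝ, ((dv φ F : X) : ℝ → ℂ) t * Gf (t + s) = 0)
    {f : ℝ → ℂ} (hf : L1 φ f)
    (hfX : Integrable (fun t => f t • XiW hφ (annW hφ l) ρ t) volume)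
    (hfG : ∀ s : ℝ, Integrable (fun t => f t * Gb hφ l ρ (t + s)) volume)
    (hf0 : ∀ s : ℝ, ∫ t : ℝ, f t * (Gb hφ l ρ (t + s) + Gf (t + s)) = 0) :
    ∫ t : ℝ, f t • XiW hφ (annW hφ l) ρ t = 0 := by
  have hCf0 : 0 ≤ Cf := by
    have h1 := (norm_nonneg _).trans (hGC 0)
    have h2 : 0 < φ 0 := lt_of_lt_of_le one_pos (hφ.one_le 0)
    exact nonneg_of_mul_nonneg_left h1 h2
  set J := annW hφ l with hJ
  set ζ : J.Q := ∫ t : ℝ, f t • XiW hφ J ρ t with hζ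
  obtain ⟨g0, hg0⟩ := J.qm_surj ζ
  set k : Y →L[ℂ] ℂ := (kqW hφ l).comp
    (((J.S hφ).pi ((dv φ g0 : X) : ℝ → ℂ)).comp J.qm) with hk
  have hk1 : ∀ h : Y, (J.S hφ).pi ((dv φ g0 : X) : ℝ → ℂ) (J.qm h) =
      (J.S hφ).pi ((dv φ h : X) : ℝ → ℂ) ζ := by
    intro h
    rw [← hg0, ← J.qm_pi, ← J.qm_pi]
    congr 1
    exact convW_comm hφ g0 h
  have hk2 : ∀ h : Y, k h = kqW hφ l ((J.S hφ).pi ((dv φ h : X) : ℝ → ℂ) ζ) := by
    intro h
    rw [← hk1]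
    rfl
  -- the pairing of `ζ`
  have hTζ : ∀ s : ℝ, 0 ≤ s → kqW hφ l ((J.S hφ).T s ζ) = -∫ t : ℝ, f t * Gf (t + s) := by
    intro s hs
    have h1 : kqW hφ l ((J.S hφ).T s ζ) = ∫ t : ℝ, f t * Gb hφ l ρ (t + s) := by
      have h2 := ContinuousLinearMap.integral_comp_comm ((kqW hφ l).comp ((J.S hφ).T s)) hfX
      rw [← hζ, ContinuousLinearMap.comp_apply] at h2
      rw [← h2]
      congr 1
      ext1 t
      rw [map_smul, ContinuousLinearMap.comp_apply, H90.T_Xi hC t hs, smul_eq_mul]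
      rfl
    have h3 := hf0 s
    have h4 : Integrable (fun t => f t * Gf (t + s)) volume := by
      refine (hf.2.const_mul (Cf * φ s)).mono' (hf.1.mul
        (hGm.comp (measurable_add_const s)).aestronglyMeasurable)
        (Eventually.of_forall fun t => ?_)
      rw [norm_mul]
      calc ‖f t‖ * ‖Gf (t + s)‖ ≤ ‖f t‖ * (Cf * (φ t * φ s)) := by
            apply mul_le_mul_of_nonneg_left _ (norm_nonneg _)
            exact (hGC _).trans (mul_le_mul_of_nonneg_left (hφ.submul t s) hCf0)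
        _ = Cf * φ s * (φ t * ‖f t‖) := by ring
    simp only [mul_add] at h3
    rw [integral_add (hfG s) h4] at h3
    rw [h1]
    exact eq_neg_of_add_eq_zero_left h3
  -- elements killed by the projection
  have hi : ∀ h : Y, EcW hφ J ρ 0 (J.qm h) = 0 → k h = 0 := by
    intro h hh
    rw [hk2]
    have h1 := ContinuousLinearMap.integral_comp_comm ((J.S hφ).pi ((dv φ h : X) : ℝ → ℂ)) hfX
    rw [← hζ] at h1
    have h2 : (J.S hφ).pi ((dv φ h : X) : ℝ → ℂ) ζ = 0 := by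
      rw [← h1]
      have h3 : ∀ t : ℝ, (J.S hφ).pi ((dv φ h : X) : ℝ → ℂ) (f t • XiW hφ J ρ t) = 0 := by
        intro t
        rw [map_smul, H90.pi_Xi hC, ← E0_E hC, hh, map_zero, smul_zero]
      simp only [h3, integral_zero]
    rw [h2, map_zero]
  -- elements in the range of the projection
  have hii : ∀ h : Y, EcW hφ J ρ 0 (J.qm h) = J.qm h → k h = 0 := by
    intro h hh
    have hmem : h ∈ (annW hφ (lf hφ l ρ)).I := (mem_ann_lf hC h).mpr hh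
    have hci := (J.S hφ).cont_mul (GI_dv hφ h) ζ
    rw [hk2, (J.S hφ).pi_apply (GI_dv hφ h),
      ← ContinuousLinearMap.integral_comp_comm (kqW hφ l) hci]
    have h1 : ∫ s in Set.Ioi (0 : ℝ), kqW hφ l (((dv φ h : X) : ℝ → ℂ) s • (J.S hφ).T s ζ) =
        ∫ s in Set.Ioi (0 : ℝ), ((dv φ h : X) : ℝ → ℂ) s * (-∫ t : ℝ, f t * Gf (t + s)) := by
      apply setIntegral_congr_fun measurableSet_Ioi
      intro s hs
      have hs' : (0 : ℝ) < s := hs
      simp only [map_smul, smul_eq_mul]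
      rw [hTζ s hs'.le]
    rw [h1, ← Y_integral_Ioi (dv φ h) (F := fun u s => u * (-∫ t : ℝ, f t * Gf (t + s)))
      (by simp)]
    simp only [mul_neg]
    rw [integral_neg, fubini_sum hφ (L1_dv hφ h) hf hGm hGC]
    have h2 : ∀ t : ℝ, f t * ∫ s : ℝ, ((dv φ h : X) : ℝ → ℂ) s * Gf (s + t) = 0 := by
      intro t
      rw [hkill h hmem t, mul_zero]
    simp only [h2, integral_zero, neg_zero]
  have hk0 : ∀ h : Y, k h = 0 := by
    intro h
    obtain ⟨h1, hh1⟩ := J.qm_surj (EcW hφ J ρ 0 (J.qm h))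
    have e1 : k h1 = 0 := hii h1 (by rw [hh1, E0_E hC])
    have e2 : k (h - h1) = 0 := hi (h - h1) (by
      rw [map_sub, map_sub, hh1, E0_E hC, sub_self])
    rw [map_sub, e1, sub_zero] at e2
    exact e2
  have h1 : (J.S hφ).pi ((dv φ g0 : X) : ℝ → ℂ) (J.qm (rw' φ)) = 0 := by
    apply sep0 hφ
    intro s hs
    have h2 : (J.S hφ).T s ((J.S hφ).pi ((dv φ g0 : X) : ℝ → ℂ) (J.qm (rw' φ))) =
        (J.S hφ).pi ((dv φ g0 : X) : ℝ → ℂ) (J.qm (YW φ s (rw' φ))) := by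
      rw [J.qm_T hφ hs]
      exact (J.S hφ).pi_commute (J.S hφ) ((J.S hφ).T s) (fun u hu y => by
        rw [← (J.S hφ).add s u hs hu, ← (J.S hφ).add u s hu hs, add_comm]) _ _
    rw [h2]
    exact hk0 (YW φ s (rw' φ))
  apply H90.En_inj hφ J
  rw [← H90.pi_rr, ← hk1]
  exact h1

end

end Pool.Agent.WK7.S69
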